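import Pool.Agent.V7H47.LB.Spec
import Pool.Agent.Helper865.Wid.K1a
import Pool.Agent.Helper865.Wid.K1b
import Pool.Agent.Helper865.Wid.B1

/-!
# A largest inscribed circle and its contact directions
-/

set_option autoImplicit false

open Real Set

namespace Pool.Agent.V7H51.LB

open Pool.Agent.V7H47.LB
open Pool.Agent.V7H47.TC (Plane)
open Pool.Agent.Helper865.Wid (inballMax touching interior_ne widthDir)

lemma inner_pol (t : ℝ) (x : Plane) : inner ℝ x (pol 1 t) = D t x := by
  rw [PiLp.inner_apply, Fin.sum_univ_two]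
  simp [pol, D]

lemma D_sub (t : ℝ) (x y : Plane) : D t (x - y) = D t x - D t y := by
  simp [D]; ring

lemma angle (u : Plane) (hu : ‖u‖ = 1) (a : ℝ) :
    ∃ t, a ≤ t ∧ t < a + 2 * π ∧ u = pol 1 t := by
  have h1 : u 0 ^ 2 + u 1 ^ 2 = 1 := by
    have := EuclideanSpace.norm_sq_eq u
    rw [hu, Fin.sum_univ_two, Real.norm_eq_abs, Real.norm_eq_abs, sq_abs, sq_abs] at this
    linarith
  set z : ℂ := ⟨u 0, u 1⟩ with hz
  have hz1 : ‖z‖ = 1 := by
    rw [Complex.norm_def, Complex.normSq_mk, ← pow_two, ← pow_two, h1, Real.sqrt_one]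
  have hz0 : z ≠ 0 := by
    intro h
    rw [h, norm_zero] at hz1
    norm_num at hz1
  have hc : cos (Complex.arg z) = u 0 := by rw [Complex.cos_arg hz0, hz1, div_one]
  have hs : sin (Complex.arg z) = u 1 := by rw [Complex.sin_arg, hz1, div_one]
  have hm := toIcoMod_mem_Ico two_pi_pos a (Complex.arg z)
  have he : toIcoMod two_pi_pos a (Complex.arg z) =
      Complex.arg z - (toIcoDiv two_pi_pos a (Complex.arg z) : ℤ) * (2 * π) := by
    rw [← self_sub_toIcoDiv_zsmul, zsmul_eq_mul]
  have k1 : cos (toIcoMod two_pi_pos a (Complex.arg z)) = u 0 := by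
    rw [he, Real.cos_sub_int_mul_two_pi, hc]
  have k2 : sin (toIcoMod two_pi_pos a (Complex.arg z)) = u 1 := by
    rw [he, Real.sin_sub_int_mul_two_pi, hs]
  refine ⟨toIcoMod two_pi_pos a (Complex.arg z), hm.1, hm.2, ?_⟩
  ext i
  fin_cases i
  · simp [pol, k1]
  · simp [pol, k2]

lemma sin_nonpos' {x : ℝ} (h1 : π ≤ x) (h2 : x ≤ 2 * π) : sin x ≤ 0 := by
  have := sin_nonneg_of_nonneg_of_le_pi (show 0 ≤ x - π by linarith) (by linarith)
  rw [sin_sub_pi] at this
  linarith

lemma gaps {a b e α β γ : ℝ} (hα : 0 < α) (hβ : 0 < β) (hγ : 0 < γ) (h1 : a ≤ b) (h2 : b ≤ e)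
    (h3 : e < a + 2 * π) (hc : α * cos a + β * cos b + γ * cos e = 0)
    (hs : α * sin a + β * sin b + γ * sin e = 0) (hne : sin (b - a) ≠ 0) : Gaps a b e := by
  have e1 : β * sin (b - a) + γ * sin (e - a) = 0 := by
    rw [sin_sub, sin_sub]
    linear_combination cos a * hs - sin a * hc
  have e2 : -α * sin (b - a) + γ * sin (e - b) = 0 := by
    rw [sin_sub, sin_sub]
    linear_combination cos b * hs - sin b * hc
  have hab : a < b := by
    rcases eq_or_lt_of_le h1 with h | h
    · exact absurd (by rw [h, sub_self, sin_zero]) hne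
    · exact h
  rcases lt_or_gt_of_ne hne with h | h
  · exfalso
    have h4 : π < b - a := by
      by_contra h5
      exact absurd (sin_nonneg_of_nonneg_of_le_pi (by linarith) (not_lt.1 h5)) (not_le.2 h)
    have h5 := sin_nonneg_of_nonneg_of_le_pi (show 0 ≤ e - b by linarith) (by linarith)
    nlinarith [mul_nonneg hγ.le h5, mul_pos hα (neg_pos.2 h)]
  · have h4 : b - a < π := by
      by_contra h5
      exact absurd (sin_nonpos' (not_lt.1 h5) (by linarith)) (not_le.2 h)
    have h5 : 0 < sin (e - b) := by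
      have : 0 < γ * sin (e - b) := by nlinarith [mul_pos hα h]
      exact (mul_pos_iff_of_pos_left hγ).1 this
    have h6 : sin (e - a) < 0 := by
      have : 0 < γ * -sin (e - a) := by nlinarith [mul_pos hβ h]
      linarith [(mul_pos_iff_of_pos_left hγ).1 this]
    have h7 : b < e := by
      rcases eq_or_lt_of_le h2 with h8 | h8
      · rw [h8, sub_self, sin_zero] at h5
        exact absurd h5 (lt_irrefl _)
      · exact h8
    have h8 : e - b < π := by
      by_contra h9
      exact absurd (sin_nonpos' (not_lt.1 h9) (by linarith)) (not_le.2 h5)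
    have h9 : π < e - a := by
      by_contra h9
      exact absurd (sin_nonneg_of_nonneg_of_le_pi (by linarith) (not_lt.1 h9)) (not_le.2 h6)
    exact ⟨hab, by linarith, h7, by linarith, h3, by linarith⟩

lemma sin_ne {a b : ℝ} (h1 : pol 1 a ≠ pol 1 b) (h2 : pol 1 a ≠ -pol 1 b) : sin (b - a) ≠ 0 := by
  intro h
  have h3 : cos (b - a) ^ 2 = 1 := by
    have := sin_sq_add_cos_sq (b - a)
    rw [h] at this
    linarith
  have e1 : cos b = cos a * cos (b - a) := by
    have : cos b = cos (a + (b - a)) := by congr 1; ring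
    rw [this, cos_add, h]; ring
  have e2 : sin b = sin a * cos (b - a) := by
    have : sin b = sin (a + (b - a)) := by congr 1; ring
    rw [this, sin_add, h]; ring
  have h4 : (cos (b - a) - 1) * (cos (b - a) + 1) = 0 := by linear_combination h3
  rcases mul_eq_zero.1 h4 with h5 | h5
  · have h6 : cos (b - a) = 1 := by linarith
    rw [h6, mul_one] at e1 e2
    apply h1
    rw [pol, pol, e1, e2]
  · have h6 : cos (b - a) = -1 := by linarith
    rw [h6] at e1 e2
    apply h2
    rw [pol, pol, e1, e2]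
    ext i
    fin_cases i <;> simp

theorem t_INC : S_INC := by
  intro K hK hC hW
  have hcont : ∀ u : Plane, Continuous fun x : Plane => inner ℝ x u := fun u => by fun_prop
  have hint : (interior K).Nonempty := by
    refine interior_ne (d := 2) (by norm_num) (t := 1 / 2) (by norm_num) hC (fun u hu => ?_)
    obtain ⟨t, -, -, rfl⟩ := angle u hu 0
    obtain ⟨x, hx, y, hy, h⟩ := hW t
    have hI := hK.image (hcont (pol 1 t))
    have h1 : D t x ≤ sSup ((fun x : Plane => inner ℝ x (pol 1 t)) '' K) :=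
      le_csSup hI.bddAbove ⟨x, hx, inner_pol t x⟩
    have h2 : sInf ((fun x : Plane => inner ℝ x (pol 1 t)) '' K) ≤ D t y :=
      csInf_le hI.bddBelow ⟨y, hy, inner_pol t y⟩
    unfold widthDir
    linarith
  obtain ⟨o, r, hr, hball, hv⟩ := inballMax K hK hC hint
  refine ⟨o, r, hr, hball, ?_⟩
  set N : Set Plane := {u | ‖u‖ = 1 ∧ ∀ x ∈ K, inner ℝ (x - o) u ≤ r} with hN
  have hNc : IsCompact N := by
    refine (isCompact_sphere (0 : Plane) 1).of_isClosed_subset ?_ ?_
    · have : N = {u | ‖u‖ = 1} ∩ ⋂ x ∈ K, {u : Plane | inner ℝ (x - o) u ≤ r} := by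
        ext u; simp [hN]
      rw [this]
      refine (isClosed_eq continuous_norm continuous_const).inter ?_
      exact isClosed_biInter fun x _ => isClosed_le (by fun_prop) continuous_const
    · intro u hu
      simpa using hu.1
  have key : ∀ t : ℝ, pol 1 t ∈ N → ∀ x ∈ K, D t x ≤ D t o + r := by
    intro t ht x hx
    have := ht.2 x hx
    rw [inner_pol, D_sub] at this
    linarith
  rcases touching N hNc (fun u hu => hu.1) (fun v => by
    obtain ⟨u, h1, h2, h3⟩ := hv v
    exact ⟨u, ⟨h1, h2⟩, h3⟩) with ⟨u, hu, hu'⟩ | ⟨u, l, huN, hl, hl1, hl0, hne⟩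
  · left
    obtain ⟨t, -, -, rfl⟩ := angle u hu.1 0
    refine ⟨t, key t hu, fun x hx => ?_⟩
    have := hu'.2 x hx
    rw [inner_neg_right, inner_pol, D_sub] at this
    linarith
  · right
    obtain ⟨a, -, -, ha⟩ := angle (u 0) (huN 0).1 0
    obtain ⟨b, hb1, hb2, hb⟩ := angle (u 1) (huN 1).1 a
    obtain ⟨e, he1, he2, he⟩ := angle (u 2) (huN 2).1 a
    rw [Fin.sum_univ_three, ha, hb, he] at hl0
    have hc : l 0 * cos a + l 1 * cos b + l 2 * cos e = 0 := by
      have := congrArg (fun z : Plane => z 0) hl0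
      simpa [pol] using this
    have hs : l 0 * sin a + l 1 * sin b + l 2 * sin e = 0 := by
      have := congrArg (fun z : Plane => z 1) hl0
      simpa [pol] using this
    have hN0 := huN 0
    have hN1 := huN 1
    have hN2 := huN 2
    rw [ha] at hN0
    rw [hb] at hN1
    rw [he] at hN2
    have n1 : sin (b - a) ≠ 0 := by
      have := hne 0 1 (by decide)
      rw [ha, hb] at this
      exact sin_ne this.1 this.2
    have n2 : sin (e - a) ≠ 0 := by
      have := hne 0 2 (by decide)
      rw [ha, he] at this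
      exact sin_ne this.1 this.2
    rcases le_total b e with h | h
    · exact ⟨a, b, e, gaps (hl 0) (hl 1) (hl 2) hb1 h he2 hc hs n1, key a hN0, key b hN1, key e hN2⟩
    · exact ⟨a, e, b, gaps (hl 0) (hl 2) (hl 1) he1 h hb2 (by linarith) (by linarith) n2,
        key a hN0, key e hN2, key b hN1⟩

end Pool.Agent.V7H51.LB
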